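import Pool.Agent.NH50.ST.NearMain

/-!
# MP_fcea8e_co: the tournament threshold and the chromatic threshold agree up to a constant for
trees with a fixed core and arbitrarily many leaves at one vertex
-/

set_option autoImplicit false

namespace Pool.Agent.Results.MP_fcea8e_co.ManyLeavesAtOneVertex

open scoped Classical

/-- the tournament threshold `t(T)` -/
noncomputable def tThr {k : ℕ} (T : Digraph (Fin k)) : ℕ :=
  sInf {n : ℕ | ∀ G : Digraph (Fin n),
          (∀ a b, G.Adj a b → ¬ G.Adj b a) →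
          (∀ a b, a ≠ b → G.Adj a b ∨ G.Adj b a) →
          ∃ f : Fin k → Fin n, Function.Injective f ∧
            ∀ a b, T.Adj a b → G.Adj (f a) (f b)}

/-- the chromatic threshold `c(T)` -/
noncomputable def cThr {k : ℕ} (T : Digraph (Fin k)) : ℕ :=
  sInf {n : ℕ | ∀ (m : ℕ) (G : Digraph (Fin m)),
          (∀ a b, G.Adj a b → ¬ G.Adj b a) →
          (n : ℕ∞) ≤ (SimpleGraph.fromRel G.Adj).chromaticNumber →
          ∃ f : Fin k → Fin m, Function.Injective f ∧
            ∀ a b, T.Adj a b → G.Adj (f a) (f b)}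

/-- Let `T` be an oriented forest, `z` a vertex and `S` a set of `n + 1` vertices which contains
`z`, such that every vertex outside `S` is a leaf joined with `z` (in either direction). Then
`t(T) ≤ c(T) ≤ t(T) + n ^ 2 + 4 n`. -/
theorem result (k : ℕ) (T : Digraph (Fin k)) (hT : ∀ a b, T.Adj a b → ¬ T.Adj b a)
    (hac : (SimpleGraph.fromRel T.Adj).IsAcyclic) (z : Fin k) (S : Finset (Fin k)) (hz : z ∈ S)
    (harcs : ∀ a b, T.Adj a b → (a ∈ S ∧ b ∈ S) ∨ a = z ∨ b = z)
    (hleaf : ∀ a, a ∉ S → T.Adj a z ∨ T.Adj z a) (n : ℕ) (hS : S.card = n + 1) :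
    tThr T ≤ cThr T ∧ cThr T ≤ tThr T + n ^ 2 + 4 * n :=
  Pool.Agent.NH50.ST.near_main ⟨hT, hac, hz, harcs, hleaf⟩ hS

end Pool.Agent.Results.MP_fcea8e_co.ManyLeavesAtOneVertex
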