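import Pool.Agent.NH50.ST.Main

/-!
# MP_fcea8e_co: the tournament threshold and the chromatic threshold agree for all oriented stars

For the star with `p` in-leaves and `q` out-leaves both thresholds are `2 (p + q) - 1` if
`p, q ≥ 1` and `2 (p + q)` if `p = 0 < q` or `q = 0 < p` (and `1` if `p = q = 0`).
-/

set_option autoImplicit false

namespace Pool.Agent.Results.MP_fcea8e_co.OrientedStars

open Pool.Agent.NH50.ST
open scoped Classical

/-- Let `T` be an oriented star with centre `z`, `p` in-leaves and `q` out-leaves. Then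
`t(T) = c(T) = (2 p - 1) + (2 q - 1) + 1`, where `2 p - 1` stands for `0` if `p = 0` and `2 q - 1`
for `0` if `q = 0`. -/
theorem result (k : ℕ) (T : Digraph (Fin k)) (z : Fin k) (hT : ∀ a b, T.Adj a b → ¬ T.Adj b a)
    (hz : ∀ a b, T.Adj a b → a = z ∨ b = z) (hc : ∀ a, a ≠ z → T.Adj a z ∨ T.Adj z a) (p q : ℕ)
    (hp : (Finset.univ.filter (fun a => T.Adj a z)).card = p)
    (hq : (Finset.univ.filter (fun a => T.Adj z a)).card = q) :
    sInf {n : ℕ | ∀ G : Digraph (Fin n),
          (∀ a b, G.Adj a b → ¬ G.Adj b a) →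
          (∀ a b, a ≠ b → G.Adj a b ∨ G.Adj b a) →
          ∃ f : Fin k → Fin n, Function.Injective f ∧
            ∀ a b, T.Adj a b → G.Adj (f a) (f b)} = (2 * p - 1) + (2 * q - 1) + 1 ∧
      sInf {n : ℕ | ∀ (m : ℕ) (G : Digraph (Fin m)),
          (∀ a b, G.Adj a b → ¬ G.Adj b a) →
          (n : ℕ∞) ≤ (SimpleGraph.fromRel G.Adj).chromaticNumber →
          ∃ f : Fin k → Fin m, Function.Injective f ∧
            ∀ a b, T.Adj a b → G.Adj (f a) (f b)} = (2 * p - 1) + (2 * q - 1) + 1 :=
  main T z hT hz hc p q hp hq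

end Pool.Agent.Results.MP_fcea8e_co.OrientedStars
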