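import Pool.Agent.NH50.ST.LegMain

/-!
# MP_fcea8e_co: the tournament threshold and the chromatic threshold agree for stars with a directed
leg of length two

The tree `T` has a centre `z`, a directed path `z → u → w` or `w → u → z`, and all the other vertices
are leaves joined with `z` in any directions.
-/

set_option autoImplicit false

namespace Pool.Agent.Results.MP_fcea8e_co.StarsWithDirectedLeg

open Pool.Agent.NH50.ST
open scoped Classical

/-- the tournament threshold `t(T)` -/
noncomputable def tThr {k : ℕ} (T : Digraph (Fin k)) : ℕ :=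
  sInf {n : ℕ | ∀ G : Digraph (Fin n),
          (∀ a b, G.Adj a b → ¬ G.Adj b a) →
          (∀ a b, a ≠ b → G.Adj a b ∨ G.Adj b a) →
          ∃ f : Fin k → Fin n, Function.Injective f ∧
            ∀ a b, T.Adj a b → G.Adj (f a) (f b)}

/-- the chromatic threshold `c(T)` -/
noncomputable def cThr {k : ℕ} (T : Digraph (Fin k)) : ℕ :=
  sInf {n : ℕ | ∀ (m : ℕ) (G : Digraph (Fin m)),
          (∀ a b, G.Adj a b → ¬ G.Adj b a) →
          (n : ℕ∞) ≤ (SimpleGraph.fromRel G.Adj).chromaticNumber →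
          ∃ f : Fin k → Fin m, Function.Injective f ∧
            ∀ a b, T.Adj a b → G.Adj (f a) (f b)}

theorem tThr_rev {k : ℕ} (T : Digraph (Fin k)) : tThr ⟨fun a b => T.Adj b a⟩ = tThr T := by
  unfold tThr
  congr 1
  ext n
  simp only [Set.mem_setOf_eq]
  constructor
  · intro h G h1 h2
    obtain ⟨f, f1, f2⟩ := h ⟨fun a b => G.Adj b a⟩ (fun a b h => h1 b a h)
      (fun a b h => h2 b a (Ne.symm h))
    exact ⟨f, f1, fun a b hab => f2 b a hab⟩
  · intro h G h1 h2
    obtain ⟨f, f1, f2⟩ := h ⟨fun a b => G.Adj b a⟩ (fun a b h => h1 b a h)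
      (fun a b h => h2 b a (Ne.symm h))
    exact ⟨f, f1, fun a b hab => f2 b a hab⟩

theorem fromRel_rev {m : ℕ} (G : Digraph (Fin m)) :
    SimpleGraph.fromRel (fun a b => G.Adj b a) = SimpleGraph.fromRel G.Adj := by
  ext a b
  rw [SimpleGraph.fromRel_adj, SimpleGraph.fromRel_adj, or_comm]

theorem cThr_rev {k : ℕ} (T : Digraph (Fin k)) : cThr ⟨fun a b => T.Adj b a⟩ = cThr T := by
  unfold cThr
  congr 1
  ext n
  simp only [Set.mem_setOf_eq]
  constructor
  · intro h m G h1 h2
    obtain ⟨f, f1, f2⟩ := h m ⟨fun a b => G.Adj b a⟩ (fun a b h => h1 b a h)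
      (by rw [fromRel_rev]; exact h2)
    exact ⟨f, f1, fun a b hab => f2 b a hab⟩
  · intro h m G h1 h2
    obtain ⟨f, f1, f2⟩ := h m ⟨fun a b => G.Adj b a⟩ (fun a b h => h1 b a h)
      (by rw [fromRel_rev]; exact h2)
    exact ⟨f, f1, fun a b hab => f2 b a hab⟩

/-- Let `T` be an oriented tree with a vertex `z` such that all arcs contain `z`, except for one arc
between `u` and `w`, where `u` is adjacent to `z`, and let `p` and `q` be the in-degree and the
out-degree of `z`. If `z → u → w` is a directed path then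
`t(T) = c(T) = (2 p - 1) + (2 q - 1) + 1`, plus `1` if `q = 1`; if `w → u → z` is a directed path
then `t(T) = c(T) = (2 p - 1) + (2 q - 1) + 1`, plus `1` if `p = 1`. Here `2 p - 1` stands for `0`
if `p = 0` and `2 q - 1` for `0` if `q = 0`. -/
theorem result (k : ℕ) (T : Digraph (Fin k)) (z u w : Fin k)
    (hT : ∀ a b, T.Adj a b → ¬ T.Adj b a) (hwz : ¬ T.Adj z w ∧ ¬ T.Adj w z)
    (harcs : ∀ a b, T.Adj a b → a = z ∨ b = z ∨ (a = u ∧ b = w) ∨ (a = w ∧ b = u))
    (hleaf : ∀ a, a ≠ z → a ≠ w → T.Adj a z ∨ T.Adj z a) (p q : ℕ)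
    (hp : (Finset.univ.filter (fun a => T.Adj a z)).card = p)
    (hq : (Finset.univ.filter (fun a => T.Adj z a)).card = q) :
    (T.Adj z u → T.Adj u w →
      tThr T = (2 * p - 1) + (2 * q - 1) + (if q = 1 then 1 else 0) + 1 ∧
      cThr T = (2 * p - 1) + (2 * q - 1) + (if q = 1 then 1 else 0) + 1) ∧
    (T.Adj u z → T.Adj w u →
      tThr T = (2 * p - 1) + (2 * q - 1) + (if p = 1 then 1 else 0) + 1 ∧
      cThr T = (2 * p - 1) + (2 * q - 1) + (if p = 1 then 1 else 0) + 1) := by
  refine ⟨fun h1 h2 => ?_, fun h1 h2 => ?_⟩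
  · have hleg : IsLeg T z u w := by
      refine ⟨hT, h1, h2, hwz, fun a b hab => ?_, hleaf⟩
      rcases harcs a b hab with h | h | h | h
      · exact Or.inl h
      · exact Or.inr (Or.inl h)
      · exact Or.inr (Or.inr h)
      · exfalso
        rw [h.1, h.2] at hab
        exact hT u w h2 hab
    exact main2 T z u w hleg p q hp hq
  · have hleg : IsLeg (⟨fun a b => T.Adj b a⟩ : Digraph (Fin k)) z u w := by
      refine ⟨fun a b => hT b a, h1, h2, ⟨hwz.2, hwz.1⟩, fun a b hab => ?_,
        fun a ha ha' => (hleaf a ha ha').symm⟩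
      rcases harcs b a hab with h | h | h | h
      · exact Or.inr (Or.inl h)
      · exact Or.inl h
      · exfalso
        have hab' : T.Adj b a := hab
        rw [h.1, h.2] at hab'
        exact hT w u h2 hab'
      · exact Or.inr (Or.inr ⟨h.2, h.1⟩)
    have h3 := main2 (⟨fun a b => T.Adj b a⟩ : Digraph (Fin k)) z u w hleg q p hq hp
    have h4 : tThr (⟨fun a b => T.Adj b a⟩ : Digraph (Fin k)) = bd q p + 1 := h3.1
    have h5 : cThr (⟨fun a b => T.Adj b a⟩ : Digraph (Fin k)) = bd q p + 1 := h3.2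
    rw [tThr_rev] at h4
    rw [cThr_rev] at h5
    have h6 : bd q p + 1 = (2 * p - 1) + (2 * q - 1) + (if p = 1 then 1 else 0) + 1 := by
      unfold bd
      omega
    rw [h4, h5, h6]
    exact ⟨rfl, rfl⟩

end Pool.Agent.Results.MP_fcea8e_co.StarsWithDirectedLeg
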